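import Pool.Agent.TH117.PO.Full

/-!
# Numerical and homological equivalence of the classes generated by divisors and split Weil classes on
abelian varieties over finite fields
-/

namespace Pool.Agent.Results.MP_f569db_ag.KnownClassesNondegenerate

open Pool.Agent.TH117.PO Pool.Agent.TH117.BL Pool.Agent.W495.TA Pool.Agent.W547.KB Module

/-- Let `Y` be an abelian variety over an algebraic closure of a finite field, and `z` a class in
`H^{2r}(Y)` which is numerically equivalent to zero. Then `z = 0` if `z` belongs to the smallest system
of classes, with coefficients in `Ω`, which contains the classes of divisors and the split Weil classes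
on the abelian varieties of dimension four and six, on all abelian varieties over the field, and which is
stable under linear combinations, cup products, pull-backs and push-forwards; and also if `z` is the
class of any algebraic cycle with rational coefficients, and `Y` is isogenous to the product of a
supersingular abelian variety and either of a power of an abelian variety of dimension at most five, or
of powers of abelian varieties with elementary relations between the Frobenius eigenvalues. -/
theorem result (p : ℕ) [Fact p.Prime] (ν : PadicAlgCl p ≃+* ℂ) (Ω : Type) [Field Ω] [CharZero Ω]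
    [IsAlgClosed Ω]
    (C : (Y : RedAV p ν) → (κ : Type) → ((TM Ω Y) [⋀^κ]→ₗ[Ω] Ω) → Prop) (hC : IsCycleSystem Ω C)
    (Y : RedAV p ν) (r : ℕ) (z : (TM Ω Y) [⋀^Fin r × Fin 2]→ₗ[Ω] Ω)
    (hz : Alg Ω Y (Fin r × Fin 2) z ∨ (C Y (Fin r × Fin 2) z ∧ AreTate Ω C ∧
      ((∃ (A : CMPair) (b : ℕ) (ϖ : A.E), finrank ℚ A.E ≤ 10 ∧ 0 < b ∧
        IsFrobenius p ν A b ϖ ∧ IsPowerTimesSupersingular A b ϖ Y) ∨
        ∃ Z : RedAV p ν, HasElementaryRelations Z ∧ IsPowersTimesSupersingular Z Y)))
    (hnum : IsNumTrivial Ω C z) : z = 0 := by
  rcases hz with hz | ⟨hz, hT, hY⟩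
  · exact nondegenerate hC hz hnum
  · exact nondegenerate hC (alg_of_tate hC hT (alg_of_cases hY) hz) hnum

end Pool.Agent.Results.MP_f569db_ag.KnownClassesNondegenerate
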