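import Pool.Agent.TH125.Gal.Twr

/-!
# Homological and numerical equivalence on products with powers of varieties with a nodal reduction

Let `W` be a Weil cohomology theory on a class of smooth proper varieties over a field `k` of any
characteristic, and `G` a class of varieties, closed under products, with an action of a group `Γ`
with the formal properties of a Galois action (the example: varieties over a subfield `F` of the
algebraically closed field `k`, and the Galois group of `F`).

Let `X_i` be varieties in `G` which satisfy the standard conjectures of Lefschetz and of Hodge type
(for example surfaces), and whose transcendental cohomology (the orthogonal complement of all
algebraic classes) is concentrated in the middle degree and irreducible under all subgroups of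
finite index of `Γ`. For every `i` let there be one element `g_i` of `Γ` which acts on the
transcendental cohomology of `X_i` by a Picard-Lefschetz formula and trivially on the cohomology of
`Z`, on the cohomology of the `X_j` with `j ≠ i` and on the Tate twists. (Example: an element of the
inertia group at a place `v_i` of `F` at which `X_i` has an ordinary double point and `Z` and the
other `X_j` have good reduction.)

Then the conjecture D (homological and numerical equivalence coincide) holds for the product of `Z`
with arbitrary powers of the `X_i` (for `X_i` of even dimension: with less factors than the dimension
of the transcendental cohomology) if and only if it holds for `Z`. In particular it holds for the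
products of the powers of the `X_i`, where `Z` is a point. No standard conjecture is assumed for `Z`.

The proof: every algebraic class on the product is semi-invariant under a subgroup of finite index;
by the structure theorem for such classes (the Lie algebra of the operators which kill all the
equivariant multilinear maps contains the logarithm of `g_i`, or the operators of rank two given by
two conjugates of `g_i`, so it is the full symplectic or orthogonal Lie algebra; first fundamental
theorem) the algebraic classes are combinations of products of algebraic classes of the power of
`X_i` and arbitrary classes of the other factor. By a theorem on the positivity of the form on
classes generated by pairs of factors, the algebraic classes of the power have an orthogonal rational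
basis; the components of an algebraic class in this basis are algebraic classes on the other factor.
-/

universe u v w

namespace Pool.Agent.Results.MP_f569db_ag.NodalProducts

open Pool.Agent.H914 Pool.Agent.H281R3.HT Pool.Agent.TH125.Gal

/-- **The conjecture D for products with powers of varieties with a nodal reduction.** -/
theorem result {k : Type u} [Field k] {𝒱 : VarClass k} {ops : CycleOps 𝒱}
    (W : WeilCohomology.{u, v} ops) {Γ : Type w} [Group Γ] (χ : Γ →* W.Kˣ) (G : Set (GVar W Γ))
    {ι : Type} (X : ι → GVar W Γ) (D : ∀ i, (X i).X.Cycles) (Z : GVar W Γ)
    (h : NodalSystem χ G X D Z) (L : List (ι × ℕ)) (hL : Admissible X L) :
    HomEqNum W (nodalTower X D Z 0 L).X ↔ HomEqNum W Z.X :=
  homEqNum_nodal h 0 L hL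

end Pool.Agent.Results.MP_f569db_ag.NodalProducts
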