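import Pool.Agent.TH127.DensTop

/-!
# The conjecture D for a set of primes `ℓ` of positive density

Clozel proved (1999) that for an abelian variety over a finite field numerical and `ℓ`-adic
homological equivalence coincide for a set of primes `ℓ` of positive density. Here the same is proved
for all products of the following varieties `P`, and for everything generated by them.

Let `E` be a finite Galois extension of the rational numbers, contained in the complex numbers, and
let `W` be a Weil cohomology theory with coefficients in `ℚ_ℓ` (for instance `ℓ`-adic cohomology over
an algebraic closure of a finite field). The variety `P` belongs to the class `IsWeilVariety W E` if

* it satisfies the conjecture D, and the conjecture B for a divisor with hard Lefschetz (both are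
  known for all curves and surfaces);
* it has an endomorphism `F`, the Frobenius endomorphism, which multiplies the class of the divisor by
  `q > 1`, acts semisimply, and whose eigenvalues on `H^i(P)` are algebraic numbers in `E` with all
  conjugates of absolute value `q ^ (i / 2)` (the conjecture of Weil, proved by Deligne);
* all operators on the transcendental cohomology (the orthogonal complement of the algebraic classes)
  which preserve the degrees and commute with `F` are combinations of algebraic correspondences. This
  is the Tate conjecture for the transcendental part of `P × P`. By a theorem of Tate it holds on
  `H^1`, and it is no condition on simple eigenvalues of `F`.

Theorem: for a set of primes `ℓ` of lower density at least `c / [E : ℚ]`, where `c ≥ 1` is the number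
of automorphisms of `E` some power of which is the complex conjugation, homological and numerical
equivalence coincide for all Weil cohomology theories `W` with coefficients in `ℚ_ℓ`, over all fields,
and all varieties which are dominated by a product of members of the class `IsWeilVariety W E`, or
whose motives are direct summands of direct sums of Tate twists of motives of such products. The set
of primes depends only on `E`. No other case of the Tate conjecture is assumed, in particular none for
products of more than two factors.
-/

open Pool.Agent.W522.C Pool.Agent.TH127

universe u v

namespace Pool.Agent.Results.MP_f569db_ag.PositiveDensity

/-- **The conjecture D for primes of positive density and varieties generated by varieties with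
Frobenius eigenvalues in `E`.** -/
theorem result (E : Subfield ℂ) [NumberField E] [IsGalois ℚ E] :
    1 / (Module.finrank ℚ E : ℝ) ≤ conjDensity E ∧
      LowerDensity {ℓ | ∃ h : ℓ.Prime, @NumEqHomAt.{u, v} E ℓ ⟨h⟩} (conjDensity E) :=
  ⟨one_div_le_conjDensity E, density_main E⟩

end Pool.Agent.Results.MP_f569db_ag.PositiveDensity
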