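import Pool.Agent.TH127.Rank

/-!
# Homological and numerical equivalence on the square of a variety

Let `X` be a smooth proper variety of dimension `n ≥ 1` over an algebraically closed field, `W` a Weil
cohomology theory and `D` a divisor on `X` with hard Lefschetz. The following are equivalent:

1. homological and numerical equivalence coincide on `X × X`, in all codimensions;
2. they coincide for cycles of codimension `n` and of codimension `n + 1` on `X × X`;
3. they coincide for cycles of codimension `n` on `X × X`, and the conjecture B holds for `X`;
4. the sum of the dimensions of the spaces spanned by the classes of the cycles of codimensions `n`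
   and `n + 1` on `X × X` is the sum of the two ranks of the groups of these cycles modulo numerical
   equivalence.
-/

open Pool.Agent.H914 Pool.Agent.H447 Pool.Agent.W534 Pool.Agent.TH127 Pool.Agent.H914.VarClass
  Pool.Agent.H914.VarClass.Obj

universe u v

namespace Pool.Agent.Results.MP_f569db_ag.SquareRanks

private lemma key {a b c d : ℕ} (h : c ≤ a) (h' : d ≤ b) : (a = c ∧ b = d) ↔ a + b = c + d := by
  omega

/-- **The conjecture D for the square of a variety in all codimensions is its statement in the two
codimensions `n` and `n + 1`, and it is one equality of integers.** -/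
theorem result {k : Type u} [Field k] [IsAlgClosed k] {𝒱 : VarClass k} {ops : CycleOps 𝒱}
    (W : WeilCohomology.{u, v} ops) (X : 𝒱.Obj) (D : X.Cycles) (hD : X.IsCyc 1 D)
    (hHL : HardLefschetz W X D) (hn : 1 ≤ X.dim) :
    List.TFAE [
      HomEqNum W (X.prod X),
      HomEqNumIn W (X.prod X) X.dim ∧ HomEqNumIn W (X.prod X) (X.dim + 1),
      HomEqNumIn W (X.prod X) X.dim ∧ LefschetzB W X D,
      cycleRank W (X.prod X) X.dim + cycleRank W (X.prod X) (X.dim + 1) =
        numRank ops (X.prod X) X.dim + numRank ops (X.prod X) (X.dim + 1)] := by
  have h0 := d_tfae hD hHL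
  have h1 : X.dim ≤ (X.prod X).dim := by rw [dim_prod]; omega
  have h2 : X.dim + 1 ≤ (X.prod X).dim := by rw [dim_prod]; omega
  have h3 := numRank_le (W := W) h1
  have h4 := numRank_le (W := W) h2
  tfae_have 1 ↔ 2 := h0.out 0 1
  tfae_have 1 ↔ 3 := h0.out 0 2
  tfae_have 2 ↔ 4 := by
    rw [homEqNumIn_iff_rank h1, homEqNumIn_iff_rank h2]
    exact key h3 h4
  tfae_finish

end Pool.Agent.Results.MP_f569db_ag.SquareRanks
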